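import Pool.Agent.Helper42.QD.Stmts

namespace Pool.Agent.Helper42.QD

open VD

variable {D k : Type} [DivisionRing D] [Field k]

/-- Reindexing of a sum over representatives of `O / P`. -/
theorem dz0_perm {c : VD D k} {V : Type} [AddCommMonoid V] {S : Finset D}
    (hS1 : ∀ s ∈ S, c.P 0 s) (hS2 : ∀ x, c.P 0 x → ∃ s ∈ S, c.P 1 (x - s))
    (hS3 : ∀ s ∈ S, ∀ s' ∈ S, c.P 1 (s - s') → s = s') (F : D → V) (φ : D → D)
    (hF : ∀ x y, c.P 0 x → c.P 0 y → c.P 1 (x - y) → F x = F y)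
    (h0 : ∀ x, c.P 0 x → c.P 0 (φ x))
    (h1 : ∀ x y, c.P 0 x → c.P 0 y → c.P 1 (φ x - φ y) → c.P 1 (x - y)) :
    ∑ y ∈ S, F (φ y) = ∑ y ∈ S, F y := by
  classical
  choose g hg hg' using fun s : S => hS2 (φ s.1) (h0 _ (hS1 _ s.2))
  rw [← Finset.sum_coe_sort S, ← Finset.sum_coe_sort S]
  let G : S → S := fun s => ⟨g s, hg s⟩
  have hG : Function.Injective G := by
    intro s s' h
    have h2 : g s = g s' := congrArg Subtype.val h
    apply Subtype.ext
    apply hS3 _ s.2 _ s'.2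
    apply h1 _ _ (hS1 _ s.2) (hS1 _ s'.2)
    have h3 : φ s.1 - φ s'.1 = (φ s.1 - g s) - (φ s'.1 - g s') := by rw [h2]; abel
    rw [h3]
    exact P_sub (hg' s) (hg' s')
  have hG' : Function.Bijective G := Finite.injective_iff_bijective.1 hG
  rw [← hG'.sum_comp (fun s : S => F s.1)]
  exact Finset.sum_congr rfl fun s _ => hF _ _ (h0 _ (hS1 _ s.2)) (hS1 _ (hg s)) (hg' s)

theorem dz0_claim {c : VD D k} {R : KM c} {S : Finset D} (hS0 : S.Nonempty)
    (hS1 : ∀ s ∈ S, c.P 0 s) (hS2 : ∀ x, c.P 0 x → ∃ s ∈ S, c.P 1 (x - s))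
    (hS3 : ∀ s ∈ S, ∀ s' ∈ S, c.P 1 (s - s') → s = s') {u : Sp c} (hu : Fix R 1 u)
    (hn : ∀ y, c.P 0 y → R.rho (nm y) u = u) (hs : ∑ b ∈ S, R.rho (nn b) u = 0) : u = 0 := by
  classical
  have hc : (S.card : ℂ) ≠ 0 := by exact_mod_cast hS0.card_pos.ne'
  have fnm : ∀ {v : Sp c}, Fix R 1 v → ∀ x y, c.P 0 x → c.P 0 y → c.P 1 (x - y) →
      R.rho (nm x) v = R.rho (nm y) v := by
    intro v hv x y _ _ h
    have h1 : nm x = nm y * nm (x - y) := by rw [← nm_add]; congr 1; abel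
    rw [h1, rho_mul, hv _ (KK_nm h)]
  have fnn : ∀ {v : Sp c}, Fix R 1 v → ∀ x y, c.P 0 x → c.P 0 y → c.P 1 (x - y) →
      R.rho (nn x) v = R.rho (nn y) v := by
    intro v hv x y _ _ h
    have h1 : nn x = nn y * nn (x - y) := by rw [← nn_add]; congr 1; abel
    rw [h1, rho_mul, hv _ (KK_nn h)]
  -- the average over lower unipotents
  have key : ∀ b ∈ S, ∑ y ∈ S, R.rho (nm y) (R.rho (nn b) u) = if c.P 1 b then (S.card : ℂ) • u else 0 := by
    intro b hb
    split_ifs with hb1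
    · rw [hu _ (KK_nn hb1), Finset.sum_congr rfl fun y hy => hn y (hS1 y hy), Finset.sum_const]
      exact (Nat.cast_smul_eq_nsmul ℂ _ _).symm
    · have b0 : b ≠ 0 := ne_of_not_P hb1
      have bv : c.v b = 0 := by
        have h1 := lt_of_not_P hb1
        have h2 := (P_iff b0).1 (hS1 b hb)
        omega
      have d0 : -b⁻¹ ≠ 0 := neg_ne_zero.2 (inv_ne_zero b0)
      have bi : c.P 0 b⁻¹ := Or.inr (by rw [v_inv b0, bv]; simp)
      have dv : c.v (-b⁻¹) = 0 := by rw [v_neg, v_inv b0, bv]; simp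
      have hv : Fix R 1 (R.rho (dg b (-b⁻¹)) (R.rho (ww D) u)) :=
        Fix_KO (KO_dg b0 d0 bv dv) (Fix_KO KO_ww hu)
      have e1 : R.rho (nn b) u = R.rho (nm b⁻¹) (R.rho (dg b (-b⁻¹)) (R.rho (ww D) u)) := by
        conv_lhs => rw [nn_bruhat b0, rho_mul, rho_mul, rho_mul, hn _ bi]
      have e2 : ∀ y, R.rho (nm y) (R.rho (nm b⁻¹) (R.rho (dg b (-b⁻¹)) (R.rho (ww D) u))) =
          R.rho (nm (y + b⁻¹)) (R.rho (dg b (-b⁻¹)) (R.rho (ww D) u)) := by
        intro y
        rw [nm_add y, rho_mul (nm y)]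
      rw [e1, Finset.sum_congr rfl fun y _ => e2 y]
      rw [dz0_perm hS1 hS2 hS3
        (fun y => R.rho (nm y) (R.rho (dg b (-b⁻¹)) (R.rho (ww D) u))) (fun y => y + b⁻¹)
        (fnm hv) (fun x hx => P_add hx bi) (fun x y _ _ h => by rwa [add_sub_add_right_eq_sub] at h)]
      have e3 : ∀ y, R.rho (nm y) (R.rho (dg b (-b⁻¹)) (R.rho (ww D) u)) =
          R.rho (dg b (-b⁻¹)) (R.rho (ww D) (R.rho (nn ((-b⁻¹)⁻¹ * y * b)) u)) := by
        intro y
        have e4 : nm y * dg b (-b⁻¹) = dg b (-b⁻¹) * nm ((-b⁻¹)⁻¹ * y * b) := by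
          rw [dg_nm b0 d0]
          congr 2
          rw [← mul_assoc, ← mul_assoc, mul_inv_cancel₀ d0, one_mul, mul_assoc, mul_inv_cancel₀ b0,
            mul_one]
        have e5 : ∀ z : D, nm z * ww D = ww D * nn z := by
          intro z
          rw [← ww_nn_ww, mul_assoc, ww_ww, mul_one]
        rw [← rho_mul, ← rho_mul, e4, mul_assoc, e5, rho_mul, rho_mul]
      rw [Finset.sum_congr rfl fun y _ => e3 y]
      rw [← map_sum, ← map_sum]
      have di : (-b⁻¹)⁻¹ = -b := by rw [inv_neg, inv_inv]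
      have hbP : c.P 0 b := Or.inr bv.ge
      rw [dz0_perm hS1 hS2 hS3 (fun y => R.rho (nn y) u) (fun y => (-b⁻¹)⁻¹ * y * b)
        (fnn hu) (fun x hx => P_mul' (P_mul' (by rw [di]; exact P_neg hbP) hx
          (l := 0) (by omega)) hbP (by omega)) (fun x y _ _ h => ?_), hs, map_zero, map_zero]
      rw [di] at h
      have h2 : -b * x * b - -b * y * b = -b * ((x - y) * b) := by noncomm_ring
      rw [h2] at h
      have h3 := P_of_mul_left (neg_ne_zero.2 b0) h
      rw [v_neg, bv] at h3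
      have h4 := P_of_mul_right b0 h3
      rw [bv] at h4
      exact P_mono (by omega) h4
  have h1 : ∑ y ∈ S, R.rho (nm y) (∑ b ∈ S, R.rho (nn b) u) = 0 := by
    rw [hs]
    simp
  have h2 : ∑ y ∈ S, R.rho (nm y) (∑ b ∈ S, R.rho (nn b) u) =
      ∑ b ∈ S, ∑ y ∈ S, R.rho (nm y) (R.rho (nn b) u) := by
    rw [Finset.sum_comm]
    exact Finset.sum_congr rfl fun y _ => map_sum _ _ _
  rw [h2, Finset.sum_congr rfl key] at h1
  obtain ⟨s0, hs0, hs0'⟩ := hS2 0 (c.P_zero 0)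
  rw [zero_sub] at hs0'
  have hs0P : c.P 1 s0 := by
    have := P_neg hs0'
    rwa [neg_neg] at this
  have h3 : ∀ b ∈ S, b ≠ s0 → (if c.P 1 b then (S.card : ℂ) • u else 0) = 0 := by
    intro b hb hne
    rw [if_neg]
    intro h
    exact hne (hS3 b hb s0 hs0 (P_sub h hs0P))
  rw [Finset.sum_eq_single s0 h3 (fun h => absurd hs0 h), if_pos hs0P] at h1
  exact (smul_eq_zero.1 h1).resolve_left hc

theorem dz0_step [Finite k] {c : VD D k} {R : KM c} {g : Sp c} (hg : Fix R 1 g) (hg0 : g ≠ 0)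
    (hgs : ∀ x, g.1 x ≠ 0 → c.P 1 x) :
    ∃ g' : Sp c, Fix R 1 g' ∧ g' ≠ 0 ∧ (∀ x, g'.1 x ≠ 0 → c.P 1 x) ∧
      ∀ x, g'.1 x ≠ 0 → g.1 (x * c.T) ≠ 0 := by
  classical
  have hT := c.T_ne
  have hnn : ∀ b, c.P 0 b → R.rho (nn b) g = g := fun b hb =>
    nn_of_supp (i := 0) (fun x hx => by simpa using hgs x hx) hb
  -- the vector f1
  have hf1 : Fix R 1 (R.rho (dg c.T 1) g) := by
    intro h hh
    have e1 : h * dg c.T 1 = dg c.T 1 * ((dg c.T 1)⁻¹ * h * dg c.T 1) := by group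
    rw [← rho_mul, e1, rho_mul]
    congr 1
    obtain ⟨h', hh'⟩ : ∃ h', h' = (dg c.T 1)⁻¹ * h * dg c.T 1 := ⟨_, rfl⟩
    rw [← hh']
    obtain ⟨a0, a1, a2, a3⟩ := KK_iff.1 hh
    have v00 : h'.val 0 0 = c.T⁻¹ * h.val 0 0 * c.T := by
      rw [hh', mul00, mul00, mul01, dg_inv_val hT one_ne_zero, dg_val hT one_ne_zero]
      simp
    have v01 : h'.val 0 1 = c.T⁻¹ * h.val 0 1 := by
      rw [hh', mul01, mul00, mul01, dg_inv_val hT one_ne_zero, dg_val hT one_ne_zero]
      simp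
    have v10 : h'.val 1 0 = h.val 1 0 * c.T := by
      rw [hh', mul10, mul10, mul11, dg_inv_val hT one_ne_zero, dg_val hT one_ne_zero]
      simp
    have v11 : h'.val 1 1 = h.val 1 1 := by
      rw [hh', mul11, mul10, mul11, dg_inv_val hT one_ne_zero, dg_val hT one_ne_zero]
      simp
    have b00 : c.P 1 (h'.val 0 0 - 1) := by
      have e2 : h'.val 0 0 - 1 = c.T⁻¹ * (h.val 0 0 - 1) * c.T := by
        rw [v00, mul_sub, sub_mul, mul_one, inv_mul_cancel₀ hT]
      rw [e2]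
      exact P_conj' hT a0
    have b01 : c.P 0 (h'.val 0 1) := by
      rw [v01]
      have := P_mul (P_inv (c := c) hT) a1
      rw [c.v_T] at this
      exact P_mono (by omega) this
    have b10 : c.P 1 (h'.val 1 0) := by
      rw [v10]
      have := P_mul a2 (P_self (c := c) (x := c.T))
      rw [c.v_T] at this
      exact P_mono (by omega) this
    have b11 : c.P 1 (h'.val 1 1 - 1) := by rw [v11]; exact a3
    have e3 : h' = (h' * nn (-(h'.val 0 1))) * nn (h'.val 0 1) := by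
      rw [mul_assoc, ← nn_add, neg_add_cancel, nn_zero, mul_one]
    rw [e3, rho_mul, hnn _ b01]
    apply hg
    have c00 : (h' * nn (-(h'.val 0 1))).val 0 0 = h'.val 0 0 := by
      rw [mul00, nn_val]
      simp
    have c10 : (h' * nn (-(h'.val 0 1))).val 1 0 = h'.val 1 0 := by
      rw [mul10, nn_val]
      simp
    rw [KK_iff, c00, c10]
    refine ⟨b00, ?_, b10, ?_⟩
    · have e4 : (h' * nn (-(h'.val 0 1))).val 0 1 = -((h'.val 0 0 - 1) * h'.val 0 1) := by
        rw [mul01, nn_val]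
        simp only [Matrix.of_apply, Matrix.cons_val', Matrix.cons_val_zero, Matrix.cons_val_one,
          Matrix.cons_val_fin_one]
        noncomm_ring
      rw [e4]
      exact P_neg (P_mul' b00 b01 (by omega))
    · have e4 : (h' * nn (-(h'.val 0 1))).val 1 1 - 1 =
          (h'.val 1 1 - 1) - h'.val 1 0 * h'.val 0 1 := by
        rw [mul11, nn_val]
        simp only [Matrix.of_apply, Matrix.cons_val', Matrix.cons_val_zero, Matrix.cons_val_one,
          Matrix.cons_val_fin_one]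
        noncomm_ring
      rw [e4]
      exact P_sub b11 (P_mul' b10 b01 (by omega))
  have hf2 : ∀ y, c.P 0 y → R.rho (nm y) (R.rho (dg c.T 1) g) = R.rho (dg c.T 1) g := by
    intro y hy
    have e1 : nm y * dg c.T 1 = dg c.T 1 * nm (y * c.T) := by
      rw [dg_nm hT one_ne_zero, one_mul, mul_inv_cancel_right₀ hT]
    rw [← rho_mul, e1, rho_mul]
    congr 1
    apply hg
    apply KK_nm
    have := P_mul hy (P_self (c := c) (x := c.T))
    rw [c.v_T] at this
    exact P_mono (by omega) this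
  have hf0 : R.rho (dg c.T 1) g ≠ 0 := rho_ne hg0
  obtain ⟨g', hg', hg'c⟩ := cut_Fix (i := 0) le_rfl hf1 0
  rw [sub_zero] at hg'c
  refine ⟨g', hg', ?_, ?_, ?_⟩
  · intro h0
    obtain ⟨S, hS0, hS1, hS2, hS3⟩ := exists_reps c 0 1
    apply hf0
    refine dz0_claim hS0 hS1 (fun x hx => ?_) (fun s hs s' hs' h => ?_) hf1 hf2 ?_
    · obtain ⟨s, hs, h⟩ := hS2 x hx
      exact ⟨s, hs, by simpa using h⟩
    · exact hS3 s hs s' hs' (by simpa using h)
    · apply Sp_ext
      intro x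
      have e1 : (∑ b ∈ S, R.rho (nn b) (R.rho (dg c.T 1) g) : Sp c).1 x =
          (∑ b ∈ S, c.psi (x * b)) * (R.rho (dg c.T 1) g).1 x := by
        rw [Submodule.coe_sum, Finset.sum_apply, Finset.sum_mul]
        exact Finset.sum_congr rfl fun b _ => R.rn _ _ _
      rw [e1]
      change _ = (0 : ℂ)
      by_cases hx : (R.rho (dg c.T 1) g).1 x = 0
      · rw [hx, mul_zero]
      · have h2 : c.P 0 x := by simpa using Fix_supp hf1 hx
        rw [chsum hS1 hS2 hS3 (by simpa using h2)]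
        split_ifs with h3
        · exfalso
          apply hx
          have h4 : g'.1 x = (R.rho (dg c.T 1) g).1 x := by
            rw [hg'c]
            exact cut_apply_of (by simpa using h3)
          rw [← h4, h0]
          rfl
        · rw [zero_mul]
  · intro x hx
    by_contra h
    apply hx
    rw [hg'c]
    exact cut_apply_of_not (by simpa using h)
  · intro x hx
    rw [hg'c] at hx
    by_cases h : c.P 1 (x - 0)
    · rw [cut_apply_of h, rt_left hT] at hx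
      exact hx
    · exact absurd (cut_apply_of_not h) hx

theorem st_DZ0 : ST_DZ0 := by
  intro D k _ _ _ c R f hf x hx
  classical
  have hx0 : x ≠ 0 := by
    intro h
    rw [h] at hx
    exact hx f.2.1
  have h1 : c.P 0 x := by simpa using Fix_supp hf hx
  rw [P_iff hx0] at h1
  by_contra hne
  have hxP : c.P 1 x := Or.inr (by omega)
  obtain ⟨g, hg, hgc⟩ := cut_Fix (i := 0) le_rfl hf 0
  rw [sub_zero] at hgc
  have hgx : g.1 x ≠ 0 := by
    rw [hgc, cut_apply_of (by simpa using hxP)]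
    exact hx
  have hg0 : g ≠ 0 := by
    intro h
    rw [h] at hgx
    exact hgx rfl
  have hgs : ∀ y, g.1 y ≠ 0 → c.P 1 y := by
    intro y hy
    by_contra h
    apply hy
    rw [hgc]
    exact cut_apply_of_not (by simpa using h)
  have seq : ∀ n : ℕ, ∃ g' : Sp c, Fix R 1 g' ∧ g' ≠ 0 ∧ (∀ x, g'.1 x ≠ 0 → c.P 1 x) ∧
      ∀ x, g'.1 x ≠ 0 → g.1 (x * c.T ^ n) ≠ 0 := by
    intro n
    induction n with
    | zero => exact ⟨g, hg, hg0, hgs, fun x hx => by simpa using hx⟩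
    | succ n ih =>
      obtain ⟨g1, a1, a2, a3, a4⟩ := ih
      obtain ⟨g2, b1, b2, b3, b4⟩ := dz0_step a1 a2 a3
      refine ⟨g2, b1, b2, b3, fun x hx => ?_⟩
      have := a4 _ (b4 x hx)
      rwa [mul_assoc, ← pow_succ'] at this
  obtain ⟨m, _, _, hm⟩ := g.2.2
  obtain ⟨g', _, b2, b3, b4⟩ := seq m
  obtain ⟨y, hy0, hy⟩ := exists_ne b2
  have h2 := b3 y hy
  rw [P_iff hy0] at h2
  have h3 := (hm _ (b4 y hy)).2
  rw [c.v_mul _ _ hy0 (pow_ne_zero _ c.T_ne), ← zpow_natCast, v_T_zpow] at h3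
  omega

end Pool.Agent.Helper42.QD
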