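import Pool.Agent.Helper58.CP.Stmts

/-! Row P0 of block D of project QR: the basic inequality. -/

set_option autoImplicit false

namespace QD74

open CP Finset Classical

/-- the crossing set is closed around the vertices of `A` -/
theorem around {D V F : Type} [Fintype D] [Fintype V] [Fintype F] (h2 : ST_ORB) (m : LM D V F)
    (A : Finset V) (S : Set F)
    (hcl : ∀ d, (m.vt d ∈ A ∨ m.vt (m.opp d) ∈ A) → m.fc d ∈ S → m.fc (m.opp d) ∈ S)
    (d : D) (hd : m.vt d ∈ A) (hS : m.fc d ∈ S) (d' : D) (h : m.vt d' = m.vt d) :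
    m.fc d' ∈ S := by
  have hstep : ∀ x, m.fc (m.rot x) = m.fc (m.opp x) := fun x => by
    have := m.fc_face (m.opp x)
    rwa [m.opp_opp] at this
  have key : ∀ k : ℕ, m.vt ((m.rot ^ k) d) = m.vt d ∧ m.fc ((m.rot ^ k) d) ∈ S := by
    intro k
    induction k with
    | zero => exact ⟨rfl, hS⟩
    | succ k ih =>
      rw [pow_succ', Equiv.Perm.mul_apply]
      refine ⟨by rw [m.vt_rot]; exact ih.1, ?_⟩
      rw [hstep]
      exact hcl _ (Or.inl (by rw [ih.1]; exact hd)) ih.2
  have hsc : m.rot.SameCycle d d' := ((h2 D V F m).1 d d' h.symm)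
  obtain ⟨k, hk⟩ := hsc.exists_nat_pow_eq
  rw [← hk]
  exact (key k).2

theorem st_P0 (h1 : ST_P0C) (h2 : ST_ORB) : ST_P0 := by
  intro D V F _ _ _ m hT A
  induction A using Finset.strongInduction with
  | H A ih =>
    intro hA hU
    by_cases hconn : ∀ S : Set F, S.Nonempty → S ⊆ meets m A →
        (∀ d, (m.vt d ∈ A ∨ m.vt (m.opp d) ∈ A) → m.fc d ∈ S → m.fc (m.opp d) ∈ S) →
        S = meets m A
    · exact h1 D V F m hT A hA hU hconn
    · push Not at hconn
      obtain ⟨S, hSne, hSsub, hcl, hSneq⟩ := hconn
      have har := around h2 m A S hcl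
      set A1 := A.filter (fun a => ∃ d, m.vt d = a ∧ m.fc d ∈ S) with hA1
      set A2 := A.filter (fun a => ¬ ∃ d, m.vt d = a ∧ m.fc d ∈ S) with hA2
      have hcard : A1.card + A2.card = A.card := Finset.card_filter_add_card_filter_not _
      have hm1 : meets m A1 = S := by
        ext φ
        constructor
        · rintro ⟨d, rfl, hd⟩
          obtain ⟨hdA, d0, hd0, hS0⟩ := Finset.mem_filter.1 hd
          exact har d0 (by rw [hd0]; exact hdA) hS0 d hd0.symm
        · intro hφ
          obtain ⟨d, hd, hdA⟩ := hSsub hφ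
          exact ⟨d, hd, Finset.mem_filter.2 ⟨hdA, d, rfl, by rw [hd]; exact hφ⟩⟩
      have hm2 : meets m A2 = meets m A \ S := by
        ext φ
        constructor
        · rintro ⟨d, rfl, hd⟩
          obtain ⟨hdA, hd0⟩ := Finset.mem_filter.1 hd
          exact ⟨⟨d, rfl, hdA⟩, fun h => hd0 ⟨d, rfl, h⟩⟩
        · rintro ⟨⟨d, rfl, hdA⟩, hφ⟩
          refine ⟨d, rfl, Finset.mem_filter.2 ⟨hdA, ?_⟩⟩
          rintro ⟨d0, hd0, hS0⟩
          exact hφ (har d0 (by rw [hd0]; exact hdA) hS0 d hd0.symm)
      have hA1ne : A1.Nonempty := by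
        obtain ⟨φ, hφ⟩ := hSne
        obtain ⟨d, hd, hdA⟩ := hSsub hφ
        exact ⟨m.vt d, Finset.mem_filter.2 ⟨hdA, d, rfl, by rw [hd]; exact hφ⟩⟩
      have hA2ne : A2.Nonempty := by
        have : ∃ φ, φ ∈ meets m A ∧ φ ∉ S := by
          by_contra hno
          push Not at hno
          exact hSneq (Set.Subset.antisymm hSsub hno)
        obtain ⟨φ, ⟨d, hd, hdA⟩, hφ⟩ := this
        refine ⟨m.vt d, Finset.mem_filter.2 ⟨hdA, ?_⟩⟩
        rintro ⟨d0, hd0, hS0⟩
        exact hφ (by rw [← hd]; exact har d0 (by rw [hd0]; exact hdA) hS0 d hd0.symm)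
      have hlt1 : A1 ⊂ A := by
        rw [Finset.ssubset_iff_subset_ne]
        refine ⟨Finset.filter_subset _ _, fun h => ?_⟩
        rw [h] at hcard
        exact hA2ne.card_pos.ne' (by omega)
      have hlt2 : A2 ⊂ A := by
        rw [Finset.ssubset_iff_subset_ne]
        refine ⟨Finset.filter_subset _ _, fun h => ?_⟩
        rw [h] at hcard
        exact hA1ne.card_pos.ne' (by omega)
      have hU1 : meets m A1 ≠ Set.univ := by
        rw [hm1]
        intro h
        exact hU (Set.eq_univ_of_univ_subset (by rw [← h]; exact hSsub))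
      have hU2 : meets m A2 ≠ Set.univ := by
        rw [hm2]
        intro h
        exact hU (Set.eq_univ_of_univ_subset (by rw [← h]; exact Set.sdiff_subset))
      have i1 := ih A1 hlt1 hA1ne hU1
      have i2 := ih A2 hlt2 hA2ne hU2
      have e1 : (Finset.univ.filter (fun d => m.fc d ∈ meets m A1)).card =
          (Finset.univ.filter (fun d => m.fc d ∈ S)).card := by
        congr 1
        ext d
        simp only [Finset.mem_filter, hm1]
      have e2 : (Finset.univ.filter (fun d => m.fc d ∈ meets m A2)).card =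
          (Finset.univ.filter (fun d => m.fc d ∈ meets m A ∧ m.fc d ∉ S)).card := by
        congr 1
        ext d
        simp only [Finset.mem_filter, hm2, Set.mem_sdiff]
      rw [e1] at i1
      rw [e2] at i2
      have hsplit : (Finset.univ.filter (fun d => m.fc d ∈ S)).card +
          (Finset.univ.filter (fun d => m.fc d ∈ meets m A ∧ m.fc d ∉ S)).card =
          (Finset.univ.filter (fun d => m.fc d ∈ meets m A)).card := by
        rw [← Finset.card_union_of_disjoint]
        · congr 1
          ext d
          simp only [Finset.mem_union, Finset.mem_filter, Finset.mem_univ, true_and]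
          constructor
          · rintro (h | h)
            · exact hSsub h
            · exact h.1
          · intro h
            by_cases hS : m.fc d ∈ S
            · exact Or.inl hS
            · exact Or.inr ⟨h, hS⟩
        · rw [Finset.disjoint_left]
          intro d hd hd'
          simp only [Finset.mem_filter, Finset.mem_univ, true_and] at hd hd'
          exact hd'.2 hd
      omega

end QD74
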