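import Pool.Agent.Helper42.QC.Defs

namespace Pool.Agent.Helper42.QC

open Pool.Agent.Helper42.QD

variable {K D : Type} [Field K] [DivisionRing D]

theorem co1_powemb (c : CD K D) (n : ℕ) (a : K) :
    c.T ^ n * c.emb a = c.emb (c.sig^[n] a) * c.T ^ n := by
  induction n with
  | zero => simp
  | succ n ih =>
    rw [pow_succ', mul_assoc, ih, ← mul_assoc, c.Tmul, Function.iterate_succ_apply', mul_assoc]

theorem co1_add (c : CD K D) (y z : D) (i : ℕ) : c.co (y + z) i = c.co y i + c.co z i := by
  have h := c.co_uniq (y + z) (fun i => c.co y i + c.co z i) (fun i hi => by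
    simp only [c.co_zero y i hi, c.co_zero z i hi, add_zero]) (by
    conv_lhs => rw [c.co_spec y, c.co_spec z]
    rw [← Finset.sum_add_distrib]
    exact Finset.sum_congr rfl fun i _ => by rw [map_add, add_mul])
  exact (congrFun h i).symm

theorem co1_sub (c : CD K D) (y z : D) (i : ℕ) : c.co (y - z) i = c.co y i - c.co z i := by
  have h := c.co_uniq (y - z) (fun i => c.co y i - c.co z i) (fun i hi => by
    simp only [c.co_zero y i hi, c.co_zero z i hi, sub_zero]) (by
    conv_lhs => rw [c.co_spec y, c.co_spec z]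
    rw [← Finset.sum_sub_distrib]
    exact Finset.sum_congr rfl fun i _ => by rw [map_sub, sub_mul])
  exact (congrFun h i).symm

theorem co1_left (c : CD K D) (a : K) (y : D) (i : ℕ) : c.co (c.emb a * y) i = a * c.co y i := by
  have h := c.co_uniq (c.emb a * y) (fun i => a * c.co y i) (fun i hi => by
    simp only [c.co_zero y i hi, mul_zero]) (by
    conv_lhs => rw [c.co_spec y]
    rw [Finset.mul_sum]
    exact Finset.sum_congr rfl fun i _ => by rw [map_mul, mul_assoc])
  exact (congrFun h i).symm

theorem co1_right (c : CD K D) (a : K) (y : D) (i : ℕ) :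
    c.co (y * c.emb a) i = c.co y i * c.sig^[i] a := by
  have h := c.co_uniq (y * c.emb a) (fun i => c.co y i * c.sig^[i] a) (fun i hi => by
    simp only [c.co_zero y i hi, zero_mul]) (by
    conv_lhs => rw [c.co_spec y]
    rw [Finset.sum_mul]
    exact Finset.sum_congr rfl fun i _ => by rw [mul_assoc, co1_powemb, map_mul, mul_assoc])
  exact (congrFun h i).symm

theorem co1_single (c : CD K D) (a : K) (j i : ℕ) (hj : j < c.d) :
    c.co (c.emb a * c.T ^ j) i = if i = j then a else 0 := by
  have h := c.co_uniq (c.emb a * c.T ^ j) (fun i => if i = j then a else 0) (fun i hi => by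
    have : i ≠ j := by omega
    simp only [this, if_false]) (by
    rw [Finset.sum_eq_single j]
    · simp
    · intro b _ hb
      simp [hb]
    · intro h
      exact absurd (Finset.mem_range.2 hj) h)
  exact (congrFun h i).symm

theorem co1_mulT (c : CD K D) (y : D) : ∀ i, c.co (y * c.T) i =
    if i = 0 then c.co y (c.d - 1) * c.pi else if i < c.d then c.co y (i - 1) else 0 := by
  have hd := c.d2
  obtain ⟨e, he⟩ : ∃ e, c.d = e + 1 := ⟨c.d - 1, by omega⟩
  have h := c.co_uniq (y * c.T) (fun i => if i = 0 then c.co y (c.d - 1) * c.pi else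
    if i < c.d then c.co y (i - 1) else 0) (fun i hi => by
      have h1 : i ≠ 0 := by omega
      have h2 : ¬ i < c.d := by omega
      simp only [h1, h2, if_false]) (by
    conv_lhs => rw [c.co_spec y]
    rw [Finset.sum_mul, he, Finset.sum_range_succ, Finset.sum_range_succ']
    congr 1
    · refine Finset.sum_congr rfl fun i hi => ?_
      have h1 : i + 1 < e + 1 := by
        have := Finset.mem_range.1 hi
        omega
      rw [if_neg (Nat.succ_ne_zero i), if_pos h1, Nat.add_sub_cancel, mul_assoc, ← pow_succ]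
    · rw [if_pos rfl, Nat.add_sub_cancel, mul_assoc, ← pow_succ, ← he, c.Tpow, ← map_mul, pow_zero,
        mul_one])
  intro i
  exact (congrFun h i).symm

theorem co1_Tmul (c : CD K D) (y : D) : ∃ y', c.T * y = y' * c.T ∧
    ∀ i, c.co y' i = c.sig (c.co y i) := by
  refine ⟨∑ i ∈ Finset.range c.d, c.emb (c.sig (c.co y i)) * c.T ^ i, ?_, ?_⟩
  · conv_lhs => rw [c.co_spec y]
    rw [Finset.mul_sum, Finset.sum_mul]
    exact Finset.sum_congr rfl fun i _ => by
      rw [← mul_assoc, c.Tmul, mul_assoc, mul_assoc, ← pow_succ', ← pow_succ]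
  · intro i
    have h := c.co_uniq (∑ i ∈ Finset.range c.d, c.emb (c.sig (c.co y i)) * c.T ^ i)
      (fun i => c.sig (c.co y i)) (fun i hi => by simp only [c.co_zero y i hi, map_zero]) rfl
    exact (congrFun h i).symm

theorem st_CO1 : ST_CO1 := by
  intro K D _ _ c
  have hd := c.d2
  refine ⟨co1_add c, co1_sub c, co1_left c, co1_right c, co1_single c, ?_, ?_, ?_, ?_⟩
  · intro y i hi
    rw [co1_mulT, if_neg (Nat.succ_ne_zero i), if_pos hi, Nat.add_sub_cancel]
  · intro y
    rw [co1_mulT, if_pos rfl]
  · intro y i hi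
    obtain ⟨y', h1, h2⟩ := co1_Tmul c y
    rw [h1, co1_mulT, if_neg (Nat.succ_ne_zero i), if_pos hi, Nat.add_sub_cancel, h2]
  · intro y
    obtain ⟨y', h1, h2⟩ := co1_Tmul c y
    rw [h1, co1_mulT, if_pos rfl, h2]

end Pool.Agent.Helper42.QC
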